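import Pool.Agent.Work.MP_a09116_an.Main

set_option autoImplicit false

namespace Pool.Agent.Results.MP_a09116_an.SingularJetMap

open Pool.Agent.Work.MP_a09116_an

/-- There are Hermitian matrices `A_1, …, A_d` and `b` with `∑ b_j A_j` invertible and arbitrarily
small `a ∈ ℂ^d` such that the quadric is strongly `𝔇(a)`-nondegenerate, but the differential of the
1-jet map is singular at `(a, V)` for every `V ∈ ℂ^n`. -/
theorem result : ∃ (n d : ℕ) (A : Fin d → Matrix (Fin n) (Fin n) ℂ) (b : Fin d → ℝ),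
    (∀ j, (A j).IsHermitian) ∧ IsUnit (∑ j, (b j : ℂ) • A j) ∧
    ∃ r : ℝ, 0 < r ∧ (∀ a : Fin d → ℂ, ‖a‖ < r → ∃! X, IsSol A b a X) ∧
      ∀ δ : ℝ, 0 < δ → ∃ a : Fin d → ℂ, ‖a‖ < r ∧ ‖a‖ < δ ∧ StronglyNondegenerate A b a ∧
        ∀ V : Fin n → ℂ, ContDiffAt ℝ 1 (jetMap A b) (a, V) ∧
          ¬ Function.Injective (fderiv ℝ (jetMap A b) (a, V)) :=
  main_theorem

end Pool.Agent.Results.MP_a09116_an.SingularJetMap
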